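import Pool.Agent.V7H38.TS.Spec
import Pool.Agent.Y886.PPB

set_option autoImplicit false
set_option maxHeartbeats 1000000

/-! # Piece SIEVE: the number of primes `s` with `s + h`, `a - s` and `a - 3 h - s` prime

The proof follows `Pool.Agent.Y886.PP.rn_le`. -/

namespace Pool.Agent.V7H89.TS

open Finset Filter Pool.Agent.W262.RK
open Pool.Agent.V7H38.TS
open Pool.Agent.Y886.PP (fac_ge one_le_prod_real prod_sub_real)

/-- the product of the local factors -/
noncomputable def GM (M : ℕ) : ℝ :=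
  ∏ p ∈ M.primeFactors.filter (fun p => 10 < p), (p : ℝ) / ((p : ℝ) - 4)

lemma GM_ge_one (M : ℕ) : 1 ≤ GM M := by
  unfold GM
  apply one_le_prod_real
  intro p hp
  have h1 := fac_ge (c := 4) (p := p) (by have := (mem_filter.1 hp).2; omega)
  exact_mod_cast h1

/-- the product of the resultants -/
def MM (a h : ℕ) : ℕ := h * a * (a - 3 * h) * (a + h) * (a - 2 * h)

/-- the number of `s ≤ N` with `s`, `s + h`, `a - s` and `a - 3 h - s` prime -/
noncomputable def qn (N a h : ℕ) : ℕ :=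
  ((Icc 1 N).filter (fun s => s.Prime ∧ (s + h).Prime ∧ (a - s).Prime ∧ (a - 3 * h - s).Prime)).card

/-- the upper bound -/
theorem qn_le : ∃ C : ℝ, 0 < C ∧ ∃ N0 : ℕ, ∀ N : ℕ, N0 ≤ N → ∀ a h : ℕ, 1 ≤ h → 3 * h < a →
    (qn N a h : ℝ) ≤ C * N * GM (MM a h) / Real.log N ^ 4 := by
  classical
  obtain ⟨C, K, y0, hC, hK, hsv⟩ := Pool.Agent.W340.RT.SVR2.svr2 (Fin 4) 10 (by simp)
  have tN : Tendsto (fun N : ℕ => (N : ℝ)) atTop atTop := tendsto_natCast_atTop_atTop
  have hKr : (1 : ℝ) ≤ K := by exact_mod_cast hK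
  obtain ⟨e, he⟩ : ∃ e : ℝ, e = 1 / (2 * K) := ⟨_, rfl⟩
  have he0 : 0 < e := by rw [he]; positivity
  have heK : e * K = 1 / 2 := by rw [he]; field_simp
  have te : Tendsto (fun N : ℕ => (N : ℝ) ^ e) atTop atTop := (tendsto_rpow_atTop he0).comp tN
  have te2 : Tendsto (fun N : ℕ => (N : ℝ) ^ (e / 2)) atTop atTop :=
    (tendsto_rpow_atTop (by positivity)).comp tN
  have e1 : ∀ᶠ N : ℕ in atTop, 6 * (N : ℝ) ^ (1 / 2 : ℝ) * Real.log N ^ 4 ≤ N := by
    have h := ((isLittleO_log_rpow_rpow_atTop ((4 : ℕ) : ℝ)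
      (by norm_num : (0 : ℝ) < 1 / 2)).comp_tendsto tN).bound (by norm_num : (0 : ℝ) < 1 / 6)
    filter_upwards [h, eventually_ge_atTop 1] with N hN hN1
    have hN1' : (1 : ℝ) ≤ N := by exact_mod_cast hN1
    have hl := Real.log_nonneg hN1'
    simp only [Function.comp_def, Real.rpow_natCast] at hN
    rw [Real.norm_of_nonneg (by positivity), Real.norm_of_nonneg (by positivity)] at hN
    have h2 : (N : ℝ) ^ (1 / 2 : ℝ) * (N : ℝ) ^ (1 / 2 : ℝ) = N := by
      rw [← Real.rpow_add (by linarith)]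
      norm_num
    have h3 : 0 ≤ (N : ℝ) ^ (1 / 2 : ℝ) := by positivity
    nlinarith
  obtain ⟨N0, hN0⟩ := eventually_atTop.1 ((te.eventually_ge_atTop (y0 + 12 : ℝ)).and
    ((te2.eventually_ge_atTop 2).and (e1.and (eventually_ge_atTop 3))))
  refine ⟨C * (4 * K) ^ 4 + 1, by positivity, N0, fun N hN a h hh hha => ?_⟩
  obtain ⟨h1, h2, h3, h4⟩ := hN0 N hN
  have hNr : (3 : ℝ) ≤ N := by exact_mod_cast h4
  have hlN : 0 < Real.log N := Real.log_pos (by linarith)
  obtain ⟨y, hy⟩ : ∃ y : ℕ, y = ⌊(N : ℝ) ^ e⌋₊ := ⟨_, rfl⟩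
  have hyle : (y : ℝ) ≤ (N : ℝ) ^ e := by rw [hy]; exact Nat.floor_le (by positivity)
  have hylt : (N : ℝ) ^ e < y + 1 := by rw [hy]; exact Nat.lt_floor_add_one _
  have hyr : (y0 : ℝ) + 11 ≤ y := by linarith
  have hy9 : y0 + 11 ≤ y := by exact_mod_cast hyr
  have hsplit : (N : ℝ) ^ (e / 2) * (N : ℝ) ^ (e / 2) = (N : ℝ) ^ e := by
    rw [← Real.rpow_add (by linarith)]
    congr 1
    ring
  have hylow : (N : ℝ) ^ (e / 2) ≤ y := by nlinarith
  have hlogy : Real.log N / (4 * K) ≤ Real.log y := by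
    have h5 := Real.log_le_log (by positivity) hylow
    rw [Real.log_rpow (by linarith)] at h5
    refine le_trans (le_of_eq ?_) h5
    rw [he]
    field_simp
    ring
  have hyK : y ^ K ≤ N := by
    have h5 : (y : ℝ) ^ K ≤ N := by
      calc (y : ℝ) ^ K ≤ ((N : ℝ) ^ e) ^ K := pow_le_pow_left₀ (Nat.cast_nonneg _) hyle K
        _ = (N : ℝ) ^ (1 / 2 : ℝ) := by
            rw [← Real.rpow_natCast, ← Real.rpow_mul (by linarith), heK]
        _ ≤ (N : ℝ) ^ (1 : ℝ) := Real.rpow_le_rpow_of_exponent_le (by linarith) (by norm_num)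
        _ = N := Real.rpow_one _
    exact_mod_cast h5
  have hyhalf : (y : ℝ) ≤ (N : ℝ) ^ (1 / 2 : ℝ) := by
    refine hyle.trans (Real.rpow_le_rpow_of_exponent_le (by linarith) ?_)
    rw [he]
    apply one_div_le_one_div_of_le (by norm_num)
    linarith
  obtain ⟨M, hM⟩ : ∃ M : ℕ, M = MM a h := ⟨_, rfl⟩
  have hM' : M = h * a * (a - 3 * h) * (a + h) * (a - 2 * h) := hM
  have hM0 : M ≠ 0 := by
    rw [hM']
    exact Nat.mul_ne_zero (Nat.mul_ne_zero (Nat.mul_ne_zero (Nat.mul_ne_zero (by omega) (by omega))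
      (by omega)) (by omega)) (by omega)
  have hd1 : h ∣ M := by
    rw [hM']; exact ⟨a * (a - 3 * h) * (a + h) * (a - 2 * h), by ring⟩
  have hd2 : a ∣ M := by
    rw [hM']; exact ⟨h * (a - 3 * h) * (a + h) * (a - 2 * h), by ring⟩
  have hd3 : (a - 3 * h) ∣ M := by
    rw [hM']; exact ⟨h * a * (a + h) * (a - 2 * h), by ring⟩
  have hd4 : (a + h) ∣ M := by
    rw [hM']; exact ⟨h * a * (a - 3 * h) * (a - 2 * h), by ring⟩
  have hd5 : (a - 2 * h) ∣ M := by
    rw [hM']; exact ⟨h * a * (a - 3 * h) * (a + h), by ring⟩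
  obtain ⟨α, hα⟩ : ∃ α : Fin 4 → ℤ, α = ![1, 1, -1, -1] := ⟨_, rfl⟩
  obtain ⟨β, hβ⟩ : ∃ β : Fin 4 → ℤ, β = ![0, (h : ℤ), (a : ℤ), (a : ℤ) - 3 * h] := ⟨_, rfl⟩
  have a0 : α 0 = 1 := by rw [hα]; rfl
  have a1 : α 1 = 1 := by rw [hα]; rfl
  have a2 : α 2 = -1 := by rw [hα]; rfl
  have a3 : α 3 = -1 := by rw [hα]; rfl
  have b0 : β 0 = 0 := by rw [hβ]; rfl
  have b1 : β 1 = h := by rw [hβ]; rfl
  have b2 : β 2 = a := by rw [hβ]; rfl
  have b3 : β 3 = a - 3 * h := by rw [hβ]; rfl
  have key := hsv N y (by omega) (by omega) hyK α β 1 M 0 le_rfl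
    (one_dvd _) hM0 (by rw [one_pow]; omega) (by
      intro p hp hpM
      unfold PS at hp
      rw [mem_filter, mem_Ioc] at hp
      obtain ⟨⟨hp8, -⟩, hpp⟩ := hp
      have hppi : Prime (p : ℤ) := Nat.prime_iff_prime_int.1 hpp
      have hn1 : ¬ (p : ℤ) ∣ (h : ℤ) := by
        rw [Int.natCast_dvd_natCast]
        exact fun h' => hpM (h'.trans hd1)
      have hn2 : ¬ (p : ℤ) ∣ (a : ℤ) := by
        rw [Int.natCast_dvd_natCast]
        exact fun h' => hpM (h'.trans hd2)
      have hn3 : ¬ (p : ℤ) ∣ (a : ℤ) - 3 * h := by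
        have e2 : (a : ℤ) - 3 * h = ((a - 3 * h : ℕ) : ℤ) := by omega
        rw [e2, Int.natCast_dvd_natCast]
        exact fun h' => hpM (h'.trans hd3)
      have hn4 : ¬ (p : ℤ) ∣ (a : ℤ) + h := by
        have e2 : (a : ℤ) + h = ((a + h : ℕ) : ℤ) := by omega
        rw [e2, Int.natCast_dvd_natCast]
        exact fun h' => hpM (h'.trans hd4)
      have hn5 : ¬ (p : ℤ) ∣ (a : ℤ) - 2 * h := by
        have e2 : (a : ℤ) - 2 * h = ((a - 2 * h : ℕ) : ℤ) := by omega
        rw [e2, Int.natCast_dvd_natCast]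
        exact fun h' => hpM (h'.trans hd5)
      have hn6 : ¬ (p : ℤ) ∣ 3 * h := by
        intro h5
        rcases hppi.dvd_or_dvd h5 with h6 | h6
        · have := Int.le_of_dvd (by norm_num) h6
          omega
        · exact hn1 h6
      constructor
      · intro j h5
        have h6 : (p : ℤ) ∣ 1 := by
          fin_cases j
          · rw [← a0]; exact h5
          · rw [← a1]; exact h5
          · rw [← dvd_neg, ← a2]; exact h5
          · rw [← dvd_neg, ← a3]; exact h5
        have := Int.le_of_dvd (by norm_num) h6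
        omega
      · have r01 : Res α β 0 1 = h := by unfold Res; rw [a0, a1, b0, b1]; ring
        have r02 : Res α β 0 2 = a := by unfold Res; rw [a0, a2, b0, b2]; ring
        have r03 : Res α β 0 3 = a - 3 * h := by unfold Res; rw [a0, a3, b0, b3]; ring
        have r12 : Res α β 1 2 = a + h := by unfold Res; rw [a1, a2, b1, b2]; ring
        have r13 : Res α β 1 3 = a - 2 * h := by unfold Res; rw [a1, a3, b1, b3]; ring
        have r23 : Res α β 2 3 = 3 * h := by unfold Res; rw [a2, a3, b2, b3]; ring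
        have hsymm : ∀ j l : Fin 4, Res α β l j = -Res α β j l := by
          intro j l; unfold Res; ring
        have hlt : ∀ j l : Fin 4, j < l → ¬ (p : ℤ) ∣ Res α β j l := by
          intro j l hjl
          fin_cases j <;> fin_cases l
          · exact absurd hjl (by decide)
          · show ¬ (p : ℤ) ∣ Res α β 0 1
            rw [r01]; exact hn1
          · show ¬ (p : ℤ) ∣ Res α β 0 2
            rw [r02]; exact hn2
          · show ¬ (p : ℤ) ∣ Res α β 0 3
            rw [r03]; exact hn3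
          · exact absurd hjl (by decide)
          · exact absurd hjl (by decide)
          · show ¬ (p : ℤ) ∣ Res α β 1 2
            rw [r12]; exact hn4
          · show ¬ (p : ℤ) ∣ Res α β 1 3
            rw [r13]; exact hn5
          · exact absurd hjl (by decide)
          · exact absurd hjl (by decide)
          · exact absurd hjl (by decide)
          · show ¬ (p : ℤ) ∣ Res α β 2 3
            rw [r23]; exact hn6
          · exact absurd hjl (by decide)
          · exact absurd hjl (by decide)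
          · exact absurd hjl (by decide)
          · exact absurd hjl (by decide)
        intro j l hjl h5
        rcases lt_or_gt_of_ne hjl with h6 | h6
        · exact hlt j l h6 h5
        · rw [hsymm l j, dvd_neg] at h5
          exact hlt l j h6 h5)
  obtain ⟨B, hB⟩ : ∃ B : Finset ℕ, B = (Icc 1 N).filter (fun t : ℕ => t ≡ 0 [MOD 1] ∧
      ∀ p ∈ PS 10 y, ¬ p ∣ M → ∀ j, ¬ (p : ℤ) ∣ ff α β (t : ℤ) j) :=
    ⟨_, rfl⟩
  have hsub : (Icc 1 N).filter (fun s => s.Prime ∧ (s + h).Prime ∧ (a - s).Prime ∧ (a - 3 * h - s).Prime) ⊆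
      B ∪ (Icc 0 y ∪ ((Icc 0 y).image (fun b => a - b) ∪ (Icc 0 y).image (fun b => a - 3 * h - b))) := by
    intro s hs
    rw [mem_filter, mem_Icc] at hs
    obtain ⟨⟨hs1, hsN⟩, hp1, hp2, hp3, hp4⟩ := hs
    have g3 := hp3.two_le
    have g4 := hp4.two_le
    rw [mem_union, mem_union, mem_union, mem_image, mem_image]
    by_cases c1 : s ≤ y
    · right; left; exact mem_Icc.2 ⟨by omega, c1⟩
    by_cases c2 : a - s ≤ y
    · right; right; left
      exact ⟨a - s, mem_Icc.2 ⟨by omega, c2⟩, by omega⟩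
    by_cases c3 : a - 3 * h - s ≤ y
    · right; right; right
      exact ⟨a - 3 * h - s, mem_Icc.2 ⟨by omega, c3⟩, by omega⟩
    left
    rw [hB, mem_filter, mem_Icc]
    refine ⟨⟨hs1, hsN⟩, Nat.modEq_one, ?_⟩
    intro p hp _ j
    unfold PS at hp
    rw [mem_filter, mem_Ioc] at hp
    intro h'
    have f0 : ff α β (s : ℤ) 0 = (s : ℤ) := by unfold ff; rw [a0, b0]; ring
    have f1 : ff α β (s : ℤ) 1 = ((s + h : ℕ) : ℤ) := by
      push_cast; unfold ff; rw [a1, b1]; ring
    have f2 : ff α β (s : ℤ) 2 = ((a - s : ℕ) : ℤ) := by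
      have : ((a - s : ℕ) : ℤ) = a - s := by omega
      rw [this]; unfold ff; rw [a2, b2]; ring
    have f3 : ff α β (s : ℤ) 3 = ((a - 3 * h - s : ℕ) : ℤ) := by
      have : ((a - 3 * h - s : ℕ) : ℤ) = a - 3 * h - s := by omega
      rw [this]; unfold ff; rw [a3, b3]; ring
    have hall : (p : ℤ) ∣ (s : ℤ) ∨ (p : ℤ) ∣ ((s + h : ℕ) : ℤ) ∨ (p : ℤ) ∣ ((a - s : ℕ) : ℤ) ∨
        (p : ℤ) ∣ ((a - 3 * h - s : ℕ) : ℤ) := by
      fin_cases j
      · left; rw [← f0]; exact h'
      · right; left; rw [← f1]; exact h'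
      · right; right; left; rw [← f2]; exact h'
      · right; right; right; rw [← f3]; exact h'
    rcases hall with h5 | h5 | h5 | h5
    · rw [Int.natCast_dvd_natCast, Nat.prime_dvd_prime_iff_eq hp.2 hp1] at h5
      omega
    · rw [Int.natCast_dvd_natCast, Nat.prime_dvd_prime_iff_eq hp.2 hp2] at h5
      omega
    · rw [Int.natCast_dvd_natCast, Nat.prime_dvd_prime_iff_eq hp.2 hp3] at h5
      omega
    · rw [Int.natCast_dvd_natCast, Nat.prime_dvd_prime_iff_eq hp.2 hp4] at h5
      omega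
  have hcard : (qn N a h : ℝ) ≤ B.card + 3 * (y + 1) := by
    have c1 := card_le_card hsub
    have c2 := card_union_le B (Icc 0 y ∪ ((Icc 0 y).image (fun b => a - b) ∪
      (Icc 0 y).image (fun b => a - 3 * h - b)))
    have c3 := card_union_le (Icc 0 y) ((Icc 0 y).image (fun b => a - b) ∪
      (Icc 0 y).image (fun b => a - 3 * h - b))
    have c4 := card_union_le ((Icc 0 y).image (fun b => a - b))
      ((Icc 0 y).image (fun b => a - 3 * h - b))
    have c5 : ((Icc 0 y).image (fun b => a - b)).card ≤ (Icc 0 y).card := card_image_le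
    have c6 : ((Icc 0 y).image (fun b => a - 3 * h - b)).card ≤ (Icc 0 y).card := card_image_le
    have c7 : (Icc 0 y).card = y + 1 := by simp
    have c8 : qn N a h ≤ B.card + 3 * (y + 1) := by
      unfold qn
      omega
    exact_mod_cast c8
  have hprod : ∏ p ∈ M.primeFactors.filter (fun p => p ∈ PS 10 y),
      (p : ℝ) / ((p : ℝ) - Fintype.card (Fin 4)) ≤ GM (MM a h) := by
    unfold GM
    rw [← hM, Fintype.card_fin]
    have h5 := prod_sub_real (s := M.primeFactors.filter (fun p => p ∈ PS 10 y))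
      (t := M.primeFactors.filter (fun p => 10 < p)) (by
        intro p hp
        rw [mem_filter] at hp ⊢
        have := hp.2
        unfold PS at this
        rw [mem_filter, mem_Ioc] at this
        exact ⟨hp.1, this.1.1⟩) (fun p : ℕ => (p : ℝ) / ((p : ℝ) - (4 : ℕ))) (by
        intro p hp
        exact fac_ge (by have := (mem_filter.1 hp).2; omega))
    exact_mod_cast h5
  have hG1 := GM_ge_one (MM a h)
  have hly0 : 0 < Real.log N / (4 * K) := by positivity
  have hB1 : (B.card : ℝ) ≤ C * (4 * K) ^ 4 * N * GM (MM a h) / Real.log N ^ 4 := by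
    have key2 : (B.card : ℝ) ≤ C * (N / (1 : ℕ)) * (∏ p ∈ M.primeFactors.filter (fun p => p ∈ PS 10 y),
        (p : ℝ) / ((p : ℝ) - Fintype.card (Fin 4))) / (Real.log y) ^ (Fintype.card (Fin 4)) := by
      rw [hB]
      convert key
    refine key2.trans ?_
    rw [Fintype.card_fin, Nat.cast_one, div_one]
    rw [div_le_div_iff₀ (by
      apply pow_pos
      linarith) (by positivity)]
    have b1' : (Real.log N) ^ 4 ≤ (4 * K) ^ 4 * Real.log y ^ 4 := by
      rw [← mul_pow]
      apply pow_le_pow_left₀ hlN.le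
      rw [div_le_iff₀ (by positivity)] at hlogy
      linarith
    rw [Fintype.card_fin] at hprod
    have b2' : 0 ≤ ∏ p ∈ M.primeFactors.filter (fun p => p ∈ PS 10 y), (p : ℝ) / ((p : ℝ) - (4 : ℕ)) := by
      apply prod_nonneg
      intro p hp
      have h5 := (mem_filter.1 hp).2
      unfold PS at h5
      rw [mem_filter, mem_Ioc] at h5
      linarith [fac_ge (c := 4) (p := p) (by omega)]
    calc C * N * (∏ p ∈ M.primeFactors.filter (fun p => p ∈ PS 10 y), (p : ℝ) / ((p : ℝ) - (4 : ℕ))) *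
          Real.log N ^ 4 ≤ C * N * GM (MM a h) * ((4 * K) ^ 4 * Real.log y ^ 4) := by
          apply mul_le_mul _ b1' (by positivity) (by positivity)
          exact mul_le_mul_of_nonneg_left hprod (by positivity)
      _ = C * (4 * K) ^ 4 * N * GM (MM a h) * Real.log y ^ 4 := by ring
  have hB2 : 3 * ((y : ℝ) + 1) ≤ N * GM (MM a h) / Real.log N ^ 4 := by
    rw [le_div_iff₀ (by positivity)]
    have hy1 : (1 : ℝ) ≤ y := by linarith [Nat.cast_nonneg (α := ℝ) y0]
    calc 3 * ((y : ℝ) + 1) * Real.log N ^ 4 ≤ 6 * (N : ℝ) ^ (1 / 2 : ℝ) * Real.log N ^ 4 := by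
          apply mul_le_mul_of_nonneg_right _ (by positivity)
          linarith
      _ ≤ (N : ℝ) := h3
      _ ≤ N * GM (MM a h) := le_mul_of_one_le_right (by linarith) hG1
  calc (qn N a h : ℝ) ≤ B.card + 3 * (y + 1) := hcard
    _ ≤ C * (4 * K) ^ 4 * N * GM (MM a h) / Real.log N ^ 4 + N * GM (MM a h) / Real.log N ^ 4 := by
        linarith
    _ = (C * (4 * K) ^ 4 + 1) * N * GM (MM a h) / Real.log N ^ 4 := by ring

/-- the product of the resultants is not large -/
lemma MM_le {X a h : ℕ} (hX : 108 ≤ X) (ha : a ≤ 3 * X) (hh : h ≤ X) : MM a h ≤ X ^ 6 := by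
  unfold MM
  calc h * a * (a - 3 * h) * (a + h) * (a - 2 * h) ≤ X * (3 * X) * (3 * X) * (4 * X) * (3 * X) := by
        gcongr <;> omega
    _ = 108 * X ^ 5 := by ring
    _ ≤ X * X ^ 5 := Nat.mul_le_mul_right _ hX
    _ = X ^ 6 := by ring

theorem t_SIEVE (hP : S_PROD) : S_SIEVE := by
  classical
  obtain ⟨C1, hC1, N0, h1⟩ := qn_le
  obtain ⟨C2, hC2, X1, h2⟩ := hP
  refine ⟨3 * C1 * C2, by positivity, max (max N0 X1) 108, fun X hX a h hXa haX hh hhX => ?_⟩
  have hX0 : N0 ≤ X := ((le_max_left _ _).trans (le_max_left _ _)).trans hX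
  have hX1 : X1 ≤ X := ((le_max_right _ _).trans (le_max_left _ _)).trans hX
  have hX2 : 108 ≤ X := (le_max_right _ _).trans hX
  have hXr : (108 : ℝ) ≤ X := by exact_mod_cast hX2
  have hlX : 0 < Real.log X := Real.log_pos (by linarith)
  by_cases hha : 3 * h < a
  · have h3 := h1 (3 * X) (by omega) a h hh hha
    have h4 : (quad a h).card ≤ qn (3 * X) a h := by
      apply card_le_card
      intro s hs
      unfold quad reps at hs
      rw [mem_filter, mem_filter, mem_range] at hs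
      rw [mem_filter, mem_Icc]
      obtain ⟨⟨h5, h6, h7⟩, h8, h9⟩ := hs
      have := h6.two_le
      exact ⟨⟨by omega, by omega⟩, h6, h8, h7, h9⟩
    have h5 : GM (MM a h) ≤ C2 * Real.log (Real.log X) ^ 4 := by
      have hM0 : MM a h ≠ 0 := by
        unfold MM
        exact Nat.mul_ne_zero (Nat.mul_ne_zero (Nat.mul_ne_zero (Nat.mul_ne_zero (by omega) (by omega))
          (by omega)) (by omega)) (by omega)
      exact h2 X hX1 (MM a h) hM0 (MM_le hX2 haX hhX)
    have h6 : Real.log X ≤ Real.log ((3 * X : ℕ) : ℝ) := by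
      apply Real.log_le_log (by linarith)
      push_cast; linarith
    have h7 : (0 : ℝ) ≤ GM (MM a h) := le_trans zero_le_one (GM_ge_one _)
    calc ((quad a h).card : ℝ) ≤ qn (3 * X) a h := by exact_mod_cast h4
      _ ≤ C1 * ((3 * X : ℕ) : ℝ) * GM (MM a h) / Real.log ((3 * X : ℕ) : ℝ) ^ 4 := h3
      _ ≤ C1 * ((3 * X : ℕ) : ℝ) * (C2 * Real.log (Real.log X) ^ 4) / Real.log X ^ 4 := by
          gcongr
      _ = 3 * C1 * C2 * X * Real.log (Real.log X) ^ 4 / Real.log X ^ 4 := by push_cast; ring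
  · have h3 : quad a h = ∅ := by
      unfold quad
      rw [filter_eq_empty_iff]
      rintro s - ⟨-, h5⟩
      have h6 : a - 3 * h - s = 0 := by omega
      rw [h6] at h5
      exact Nat.not_prime_zero h5
    rw [h3, card_empty, Nat.cast_zero]
    positivity

end Pool.Agent.V7H89.TS
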